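import Pool.Agent.Helper74.DR.St

set_option autoImplicit false

namespace Pool.Agent.Helper22.DR

open Pool.Agent.Helper74.DR

private theorem pre_tr (w : List (Option (Bool × Bool))) (i : Bool) (ρ : List Bool) (τ : List (Option Bool))
    (h : Tr (pre ++ w) ((fl i ++ ρ).map some) τ) : i = true ∧ Tr w ((fl false ++ ρ).map some) τ := by
  rw [tr_append] at h
  obtain ⟨μ, h1, h2⟩ := h
  simp only [pre, fl, tr_cl, tr_op, tr_nil, List.cons_append, List.nil_append, List.map_cons,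
    List.cons.injEq] at h1
  obtain ⟨x, σ', ⟨rfl, rfl⟩, -, x2, σ2, ⟨rfl, rfl⟩, hx2, x3, σ3, ⟨rfl, rfl⟩, -, rfl⟩ := h1
  refine ⟨?_, h2⟩
  rcases hx2 with hx | hx
  · simp at hx
  · simpa using hx

private theorem run_l (hSTP : StSTP) (W : Type) (code : W → List Bool) (rk : W → Bool) (hC : Cod code)
    (l : List (W × List W)) : (∀ p ∈ l, ∀ y ∈ p.2.getLast?, rk p.1 = true ∧ rk y = false) →
    (∀ (s : List W) (τ : List (Option Bool)),
      Tr (l.flatMap (gd code rk)) ((N0 code false s).map some) τ →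
        (τ = (N0 code false s).map some ∨
        (∃ p ∈ l, ∃ s', s = p.1 :: s' ∧ τ = (N0 code true (p.2 ++ s')).map some) ∨
        ∃ σ', τ = σ'.map some ∧ Bad code rk σ')) ∧
    (∀ (s : List W) (τ : List (Option Bool)),
      Tr (l.flatMap (gd code rk)) ((N0 code true s).map some) τ →
        (τ = (N0 code true s).map some ∨ ∃ σ', τ = σ'.map some ∧ Bad code rk σ')) ∧
    (∀ (σ : List Bool) (τ : List (Option Bool)), Bad code rk σ →
      Tr (l.flatMap (gd code rk)) (σ.map some) τ → ∃ σ', τ = σ'.map some ∧ Bad code rk σ') := by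
  induction l with
  | nil =>
    intro _
    refine ⟨fun s τ h => Or.inl ?_, fun s τ h => Or.inl ?_, fun σ τ hB h => ⟨σ, ?_, hB⟩⟩ <;>
    · rw [List.flatMap_nil, tr_nil] at h
      exact h.symm
  | cons p l ih =>
    intro hp
    obtain ⟨ih1, ih2, ih3⟩ := ih fun q hq => hp q (List.mem_cons_of_mem _ hq)
    obtain ⟨s1, s2⟩ := hSTP W code rk hC p.1 p.2 (hp p List.mem_cons_self)
    refine ⟨fun s τ h => ?_, fun s τ h => ?_, fun σ τ hB h => ?_⟩
    · rw [List.flatMap_cons, tr_append] at h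
      obtain ⟨μ, h1, h2⟩ := h
      rcases s1 false s μ h1 with rfl | ⟨-, s', rfl, rfl⟩ | ⟨σ', rfl, hB⟩
      · rcases ih1 s τ h2 with h3 | ⟨q, hq, s', hs, hτ⟩ | h3
        · exact Or.inl h3
        · exact Or.inr (Or.inl ⟨q, List.mem_cons_of_mem _ hq, s', hs, hτ⟩)
        · exact Or.inr (Or.inr h3)
      · rcases ih2 _ τ h2 with h3 | h3
        · exact Or.inr (Or.inl ⟨p, List.mem_cons_self, s', rfl, h3⟩)
        · exact Or.inr (Or.inr h3)
      · exact Or.inr (Or.inr (ih3 σ' τ hB h2))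
    · rw [List.flatMap_cons, tr_append] at h
      obtain ⟨μ, h1, h2⟩ := h
      rcases s1 true s μ h1 with rfl | ⟨h3, -⟩ | ⟨σ', rfl, hB⟩
      · exact ih2 s τ h2
      · exact absurd h3 (by simp)
      · exact Or.inr (ih3 σ' τ hB h2)
    · rw [List.flatMap_cons, tr_append] at h
      obtain ⟨μ, h1, h2⟩ := h
      obtain ⟨σ', rfl, hB'⟩ := s2 σ μ hB h1
      exact ih3 σ' τ hB' h2

theorem hBLK (hSTP : StSTP) : StBLK := by
  intro W code rk hC l hl
  obtain ⟨h1, -, h3⟩ := run_l hSTP W code rk hC l hl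
  refine ⟨fun i s τ h => ?_, fun σ τ hB h => ?_⟩
  · unfold blk N0 at h
    obtain ⟨hi, h4⟩ := pre_tr _ _ _ _ h
    exact ⟨hi, h1 s τ h4⟩
  · obtain ⟨i, s, r, σ₁, rfl, hr⟩ := hB
    unfold blk N0 at h
    rw [List.append_assoc] at h
    obtain ⟨hi, h4⟩ := pre_tr _ _ _ _ h
    refine h3 (N0 code false s ++ r :: true :: σ₁) τ ⟨false, s, r, σ₁, rfl, hr⟩ ?_
    unfold N0
    rw [List.append_assoc]
    exact h4

end Pool.Agent.Helper22.DR
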